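import Mathlib
import Pool.Agent.V117.FittH

/-! MP_15f3fd_al: the Fitting ideal of the Koszul module of a graph. -/

namespace Pool.Agent.Results.MP_15f3fd_al.FittTrees

open MvPolynomial Pool.Agent.V117 Pool.Agent.V117.FittG

variable {n : ℕ} (k : Type*) [Field k] (Γ : SimpleGraph (Fin n))

/-- The non-edges of `Γ`, as pairs `(i, j)` with `i < j`: the rows of the presentation matrix. -/
abbrev NonEdge := {p : Fin n × Fin n // p.1 < p.2 ∧ ¬ Γ.Adj p.1 p.2}

/-- The triples `(a, b, c)` with `a < b < c`: the columns of the presentation matrix. -/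
abbrev Trip (n : ℕ) := {t : Fin n × Fin n × Fin n // t.1 < t.2.1 ∧ t.2.1 < t.2.2}

/-- The presentation matrix of the Koszul module `W_Γ`: the column of `(a, b, c)` is
`e_a ∧ e_b x_c - e_a ∧ e_c x_b + e_b ∧ e_c x_a` modulo the edges of `Γ`. -/
noncomputable def pres : Matrix (NonEdge Γ) (Trip n) (MvPolynomial (Fin n) k) :=
  Matrix.of fun p t =>
    (if p.1 = (t.1.1, t.1.2.1) then X t.1.2.2 else 0) -
    (if p.1 = (t.1.1, t.1.2.2) then X t.1.2.1 else 0) +
    (if p.1 = (t.1.2.1, t.1.2.2) then X t.1.1 else 0)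

/-- The zeroth Fitting ideal of `W_Γ`: generated by the maximal minors of the presentation matrix
(all rows, and as many distinct columns). -/
noncomputable def fitt [DecidableRel Γ.Adj] : Ideal (MvPolynomial (Fin n) k) :=
  Ideal.span {f | ∃ c : NonEdge Γ → Trip n, Function.Injective c ∧
    f = ((pres k Γ).submatrix id c).det}

/-- The ideal generated by the monomials `m_T = ∏ x_i ^ (deg_T i - 1)`, `T` a spanning tree. -/
noncomputable def treeIdeal : Ideal (MvPolynomial (Fin n) k) :=
  Ideal.span {f | ∃ T : SimpleGraph (Fin n), T ≤ Γ ∧ T.IsTree ∧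
    f = ∏ i, X i ^ ((T.neighborSet i).ncard - 1)}

lemma ent_weight {R : Type*} [CommRing R] (x : Fin n → R) (p : Fin n × Fin n)
    (t : Trip n) :
    (x p.1 * x p.2) * ent x p t.1 = ent (fun _ => (1 : R)) p t.1 *
      (x t.1.1 * x t.1.2.1 * x t.1.2.2) := by
  simp only [ent]
  by_cases ha : p = (t.1.1, t.1.2.1)
  · have hb : ¬ (t.1.1, t.1.2.1) = (t.1.1, t.1.2.2) := fun h => by
      rw [Prod.mk.injEq] at h
      exact absurd t.2.2 (by rw [← h.2]; exact lt_irrefl _)
    have hc : ¬ (t.1.1, t.1.2.1) = (t.1.2.1, t.1.2.2) := fun h => by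
      rw [Prod.mk.injEq] at h
      exact absurd t.2.1 (by rw [← h.1]; exact lt_irrefl _)
    rw [ha]
    simp only [hb, hc, if_true, if_false]
    ring
  · by_cases hb : p = (t.1.1, t.1.2.2)
    · have hc : ¬ (t.1.1, t.1.2.2) = (t.1.2.1, t.1.2.2) := fun h => by
        rw [Prod.mk.injEq] at h
        exact absurd t.2.1 (by rw [← h.1]; exact lt_irrefl _)
      rw [hb] at ha ⊢
      simp only [ha, hc, if_true, if_false]
      ring
    · by_cases hc : p = (t.1.2.1, t.1.2.2)
      · rw [hc] at ha hb ⊢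
        simp only [ha, hb, if_true, if_false]
        ring
      · simp only [ha, hb, hc, if_false]
        ring

lemma X_mul2 (p : Fin n × Fin n) : (X p.1 * X p.2 : MvPolynomial (Fin n) k) =
    monomial (ex2 p) 1 := by
  show monomial (Finsupp.single p.1 1) 1 * monomial (Finsupp.single p.2 1) 1 = _
  rw [monomial_mul, one_mul]
  rfl

lemma X_mul3 (t : Fin n × Fin n × Fin n) : (X t.1 * X t.2.1 * X t.2.2 :
    MvPolynomial (Fin n) k) = monomial (ex3 t) 1 := by
  show monomial (Finsupp.single t.1 1) 1 * monomial (Finsupp.single t.2.1 1) 1 *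
    monomial (Finsupp.single t.2.2 1) 1 = _
  rw [monomial_mul, monomial_mul, one_mul, one_mul]
  rfl

/-- The minors are monomials up to integers. -/
lemma det_eq [DecidableRel Γ.Adj] (c : NonEdge Γ → Trip n) :
    monomial (∑ p : NonEdge Γ, ex2 p.1) (1 : k) * ((pres k Γ).submatrix id c).det =
      monomial (∑ p, ex3 (c p).1) ((bZ Γ.Adj c : ℤ) : k) := by
  have h := CB.det_weight (bigA (fun v => (X v : MvPolynomial (Fin n) k)) Γ.Adj)
    (bigA (fun _ => (1 : MvPolynomial (Fin n) k)) Γ.Adj)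
    (fun p => X p.1.1 * X p.1.2) (fun t => X t.1.1 * X t.1.2.1 * X t.1.2.2)
    (fun p t => ent_weight (fun v => (X v : MvPolynomial (Fin n) k)) p.1 t) c
  rw [cast_bZ] at h
  simp only [X_mul2, X_mul3, prod_X'] at h
  rw [← monomial_cast]
  exact h

/-- exponent of `m_T` -/
noncomputable def expm (T : SimpleGraph (Fin n)) : Fin n →₀ ℕ :=
  ∑ v, Finsupp.single v ((T.neighborSet v).ncard - 1)

lemma expT_eq {T : SimpleGraph (Fin n)} (hT : T.IsTree) (hn : 2 ≤ n) :
    expT T = ∑ v, Finsupp.single v 1 + expm T := by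
  unfold expT expm
  rw [← Finset.sum_add_distrib]
  refine Finset.sum_congr rfl fun v _ => ?_
  rw [← Finsupp.single_add]
  congr 1
  have h1 : 0 < (T.neighborSet v).ncard := by
    rw [Set.ncard_pos]
    have : Nontrivial (Fin n) := Fin.nontrivial_iff_two_le.2 hn
    obtain ⟨w, hw⟩ := exists_ne v
    obtain ⟨p⟩ := hT.connected.preconnected v w
    cases p with
    | nil => exact absurd rfl hw
    | cons h p => exact ⟨_, h⟩
  omega

lemma mT_eq (T : SimpleGraph (Fin n)) :
    (∏ i, X i ^ ((T.neighborSet i).ncard - 1) : MvPolynomial (Fin n) k) =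
      monomial (expm T) 1 := by
  unfold expm
  rw [← prod_X']
  refine Finset.prod_congr rfl fun v _ => ?_
  rw [X_pow_eq_monomial]

lemma pow_le_span (M : ℕ) : (Ideal.span (Set.range (X : Fin n → MvPolynomial (Fin n) k))) ^ M ≤
    Ideal.span {f | ∃ h : Fin M → Fin n, f = monomial (∑ i, Finsupp.single (h i) 1) 1} := by
  induction M with
  | zero =>
    rw [pow_zero, Ideal.one_eq_top]
    intro f _
    rw [← mul_one f]
    apply Ideal.mul_mem_left
    exact Ideal.subset_span ⟨Fin.elim0, by simp⟩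
  | succ M ih =>
    rw [pow_succ]
    refine (Ideal.mul_mono_left ih).trans ?_
    rw [Ideal.span_mul_span', Ideal.span_le]
    rintro _ ⟨_, ⟨h, rfl⟩, _, ⟨v, rfl⟩, rfl⟩
    refine Ideal.subset_span ⟨Fin.snoc (α := fun _ => Fin n) h v, ?_⟩
    rw [Fin.sum_univ_castSucc]
    simp only [Fin.snoc_castSucc, Fin.snoc_last]
    show monomial _ 1 * monomial (Finsupp.single v 1) 1 = _
    rw [monomial_mul, one_mul]

lemma monomial_mem_pow (M : ℕ) (h : Fin M → Fin n) :
    monomial (∑ i, Finsupp.single (h i) 1) (1 : k) ∈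
      (Ideal.span (Set.range (X : Fin n → MvPolynomial (Fin n) k))) ^ M := by
  rw [← prod_X']
  have := Ideal.prod_mem_prod (ι := Fin M) (s := Finset.univ)
    (I := fun _ => Ideal.span (Set.range (X : Fin n → MvPolynomial (Fin n) k)))
    (x := fun i => monomial (Finsupp.single (h i) 1) (1 : k))
    (fun i _ => Ideal.subset_span ⟨h i, rfl⟩)
  rw [Finset.prod_const, Finset.card_univ, Fintype.card_fin] at this
  exact this

/-- For every simple graph `Γ` on `n ≥ 2` vertices with `N ≥ n - 2` non-edges and every field of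
characteristic zero, `Fitt W_Γ = I_{T(Γ)} * m ^ (N - n + 2)`. -/
theorem result {n : ℕ} (k : Type*) [Field k] [CharZero k] (Γ : SimpleGraph (Fin n))
    [DecidableRel Γ.Adj] (hn : 2 ≤ n) (hN : n ≤ Fintype.card (NonEdge Γ) + 2) :
    fitt k Γ = treeIdeal k Γ *
      (Ideal.span (Set.range (X : Fin n → MvPolynomial (Fin n) k))) ^
        (Fintype.card (NonEdge Γ) + 2 - n) := by
  classical
  obtain ⟨M, hM⟩ := Nat.exists_eq_add_of_le hN
  have hM' : Fintype.card (NonEdge Γ) + 2 - n = M := by omega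
  rw [hM']
  let r : Fin n := ⟨0, by omega⟩
  have hne : ∀ m : Fin n →₀ ℕ, (monomial m (1 : k)) ≠ 0 := by
    intro m h
    rw [monomial_eq_zero] at h
    exact one_ne_zero h
  -- evaluation of a minor from an exponent identity
  have hdet : ∀ (c : NonEdge Γ → Trip n) (m : Fin n →₀ ℕ),
      ∑ p, ex3 (c p).1 = ∑ p : NonEdge Γ, ex2 p.1 + m →
      ((pres k Γ).submatrix id c).det = monomial m ((bZ Γ.Adj c : ℤ) : k) := by
    intro c m hm
    apply mul_left_cancel₀ (hne (∑ p : NonEdge Γ, ex2 p.1))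
    rw [det_eq, hm, monomial_mul, one_mul]
  apply le_antisymm
  · unfold fitt
    rw [Ideal.span_le]
    rintro f ⟨c, -, rfl⟩
    show ((pres k Γ).submatrix id c).det ∈ _
    by_cases hz : bZ Γ.Adj c = 0
    · have h0 := det_eq k Γ c
      rw [hz, Int.cast_zero, monomial_zero] at h0
      rw [(mul_eq_zero.1 h0).resolve_left (hne _)]
      exact Ideal.zero_mem _
    · obtain ⟨h, c', hg, he⟩ := (support_iff Γ.Adj r M hM _).1 ⟨c, hz, rfl⟩
      obtain ⟨T, hT, htree, hTe⟩ := tree_of_g Γ r c' hg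
      rw [hTe, expT_eq htree hn] at he
      have h1 : ∑ p, ex3 (c p).1 = ∑ p : NonEdge Γ, ex2 p.1 +
          (expm T + ∑ i, Finsupp.single (h i) 1) := by
        apply add_left_cancel (a := ∑ v : Fin n, Finsupp.single v 1)
        rw [← he]
        abel
      rw [hdet c _ h1]
      have h2 : monomial (expm T + ∑ i, Finsupp.single (h i) 1) ((bZ Γ.Adj c : ℤ) : k) =
          C ((bZ Γ.Adj c : ℤ) : k) * (monomial (expm T) 1 *
            monomial (∑ i, Finsupp.single (h i) 1) 1) := by
        rw [monomial_mul, one_mul, C_mul_monomial, mul_one]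
      rw [h2]
      apply Ideal.mul_mem_left
      apply Ideal.mul_mem_mul
      · rw [← mT_eq]
        exact Ideal.subset_span ⟨T, hT, htree, rfl⟩
      · exact monomial_mem_pow k M h
  · refine (Ideal.mul_mono_right (pow_le_span k M)).trans ?_
    unfold treeIdeal
    rw [Ideal.span_mul_span', Ideal.span_le]
    rintro _ ⟨_, ⟨T, hT, htree, rfl⟩, _, ⟨h, rfl⟩, rfl⟩
    show (∏ i, X i ^ ((T.neighborSet i).ncard - 1)) *
      monomial (∑ i, Finsupp.single (h i) 1) 1 ∈ fitt k Γ
    rw [mT_eq, monomial_mul, one_mul]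
    obtain ⟨c', hg, hTe⟩ := g_of_tree Γ T hT htree r
    obtain ⟨c, hz, he⟩ := (support_iff Γ.Adj r M hM _).2 ⟨h, c', hg, rfl⟩
    rw [hTe, expT_eq htree hn] at he
    have h1 : ∑ p, ex3 (c p).1 = ∑ p : NonEdge Γ, ex2 p.1 +
        (expm T + ∑ i, Finsupp.single (h i) 1) := by
      apply add_left_cancel (a := ∑ v : Fin n, Finsupp.single v 1)
      rw [he]
      abel
    have h2 := hdet c _ h1
    have hz' : ((bZ Γ.Adj c : ℤ) : k) ≠ 0 := by exact_mod_cast hz
    have h3 : monomial (expm T + ∑ i, Finsupp.single (h i) 1) (1 : k) =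
        C (((bZ Γ.Adj c : ℤ) : k)⁻¹) * ((pres k Γ).submatrix id c).det := by
      rw [h2, C_mul_monomial, inv_mul_cancel₀ hz']
    rw [h3]
    apply Ideal.mul_mem_left
    refine Ideal.subset_span ⟨c, ?_, rfl⟩
    intro p q hpq
    by_contra hne'
    apply hz
    apply Matrix.det_zero_of_column_eq hne'
    intro v
    simp only [Matrix.submatrix_apply, hpq]

end Pool.Agent.Results.MP_15f3fd_al.FittTrees
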